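import Pool.Agent.W872.MX.Stm

/-!
# Colourings of order 2, 3, 4, 5 (part MX-FIVE)
-/

set_option autoImplicit false

namespace Pool.Agent.W753.MX

open W872.MX Finset

/-- adjacency read off from a list of bits -/
def adjB {h : ℕ} (l : List Bool) (x y : Fin h) : Bool :=
  if x.val < y.val then l.getD (y.val * (y.val - 1) / 2 + x.val) false
  else if y.val < x.val then l.getD (x.val * (x.val - 1) / 2 + y.val) false
  else false

/-- peeling down to one vertex -/
def peelB {h : ℕ} (m : Fin h → Fin h → Bool) : ℕ → List (Fin h) → Bool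
  | 0, S => S.length == 1
  | n + 1, S => S.any (fun a =>
      ((S.erase a).all (fun s => m a s) || (S.erase a).all (fun s => !m a s)) &&
        peelB m n (S.erase a))

/-- two disjoint pairs, one with `P` and one with `Q` -/
def two {h : ℕ} (P Q : Fin h → Fin h → Bool) (L : List (Fin h × Fin h × Fin h × Fin h)) : Bool :=
  L.any (fun q => (P q.1 q.2.1 && Q q.2.2.1 q.2.2.2) || (P q.2.2.1 q.2.2.2 && Q q.1 q.2.1))

def pmB {h : ℕ} (m : Fin h → Fin h → Bool) (L : List (Fin h × Fin h × Fin h × Fin h)) : Bool :=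
  two m m L && two m (fun x y => !m x y) L && two (fun x y => !m x y) (fun x y => !m x y) L

def allB : ℕ → (List Bool → Bool) → Bool
  | 0, f => f []
  | n + 1, f => allB n (fun l => f (false :: l)) && allB n (fun l => f (true :: l))

lemma allB_spec (n : ℕ) (f : List Bool → Bool) (h : allB n f = true) :
    ∀ l : List Bool, l.length = n → f l = true := by
  induction n generalizing f with
  | zero =>
    intro l hl
    rw [List.eq_nil_of_length_eq_zero hl]
    exact h
  | succ n ih =>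
    intro l hl
    obtain ⟨b, l', rfl⟩ : ∃ b l', l = b :: l' := by
      rcases l with _ | ⟨b, l'⟩
      · simp at hl
      · exact ⟨b, l', rfl⟩
    rw [allB, Bool.and_eq_true] at h
    have hl' : l'.length = n := by simpa using hl
    cases b with
    | false => exact ih _ h.1 l' hl'
    | true => exact ih _ h.2 l' hl'

def L4 : List (Fin 4 × Fin 4 × Fin 4 × Fin 4) := [(0, 1, 2, 3), (0, 2, 1, 3), (0, 3, 1, 2)]

def L5 : List (Fin 5 × Fin 5 × Fin 5 × Fin 5) :=
  [(0, 1, 2, 3), (0, 2, 1, 3), (0, 3, 1, 2), (0, 1, 2, 4), (0, 2, 1, 4), (0, 4, 1, 2),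
   (0, 1, 3, 4), (0, 3, 1, 4), (0, 4, 1, 3), (0, 2, 3, 4), (0, 3, 2, 4), (0, 4, 2, 3),
   (1, 2, 3, 4), (1, 3, 2, 4), (1, 4, 2, 3)]

def chk4 (m : Fin 4 → Fin 4 → Bool) (e : Equiv.Perm (Fin 4)) : Bool :=
  decide (∀ x y : Fin 4, m (e x) (e y) = true ↔ x ≠ y ∧ x.val / 2 = y.val / 2) ||
  decide (∀ x y : Fin 4, m (e x) (e y) = true ↔ x.val / 2 ≠ y.val / 2)

theorem check2 : allB 1 (fun l => peelB (adjB (h := 2) l) 1 [0, 1]) = true := by
  decide +kernel

theorem check3 : allB 3 (fun l => peelB (adjB (h := 3) l) 2 [0, 1, 2]) = true := by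
  decide +kernel

theorem check5 : allB 10 (fun l => peelB (adjB (h := 5) l) 4 [0, 1, 2, 3, 4] ||
    pmB (adjB (h := 5) l) L5) = true := by
  decide +kernel

theorem check4 : allB 6 (fun l => peelB (adjB (h := 4) l) 3 [0, 1, 2, 3] ||
    pmB (adjB (h := 4) l) L4 || (chk4 (adjB l) 1 || chk4 (adjB l) (Equiv.swap 1 2) ||
      chk4 (adjB l) (Equiv.swap 1 3))) = true := by
  decide +kernel

lemma peel_sound {h : ℕ} (R : SimpleGraph (Fin h)) (m : Fin h → Fin h → Bool)
    (hm : ∀ x y, R.Adj x y ↔ m x y = true) (n : ℕ) (S : List (Fin h)) (hS : S.Nodup)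
    (hp : peelB m n S = true) :
    ∃ (T : Finset (Fin h)) (k l : ℕ), T.card = 1 ∧ Peel R T S.toFinset k l := by
  induction n generalizing S with
  | zero =>
    rw [peelB, beq_iff_eq] at hp
    refine ⟨S.toFinset, 0, 0, ?_, Peel.base⟩
    rw [List.toFinset_card_of_nodup hS, hp]
  | succ n ih =>
    rw [peelB, List.any_eq_true] at hp
    obtain ⟨a, haS, ha⟩ := hp
    rw [Bool.and_eq_true, Bool.or_eq_true, List.all_eq_true, List.all_eq_true] at ha
    obtain ⟨ha1, ha2⟩ := ha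
    obtain ⟨T, k, l, hT, hP⟩ := ih (S.erase a) (hS.erase a) ha2
    have h1 : (insert a (S.erase a).toFinset : Finset (Fin h)) = S.toFinset := by
      ext x
      rw [Finset.mem_insert, List.mem_toFinset, List.mem_toFinset, hS.mem_erase_iff]
      constructor
      · rintro (rfl | h)
        · exact haS
        · exact h.2
      · intro h
        by_cases hx : x = a
        · exact Or.inl hx
        · exact Or.inr ⟨hx, h⟩
    have h2 : a ∉ (S.erase a).toFinset := by
      rw [List.mem_toFinset, hS.mem_erase_iff]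
      exact fun h => h.1 rfl
    rcases ha1 with ha1 | ha1
    · refine ⟨T, k, l + 1, hT, ?_⟩
      rw [← h1]
      exact Peel.red _ k l a h2 (fun s hs => (hm a s).2 (ha1 s (List.mem_toFinset.1 hs))) hP
    · refine ⟨T, k + 1, l, hT, ?_⟩
      rw [← h1]
      refine Peel.blue _ k l a h2 (fun s hs hadj => ?_) hP
      have h3 := ha1 s (List.mem_toFinset.1 hs)
      rw [(hm a s).1 hadj] at h3
      simp at h3

lemma good_of_peel {h : ℕ} (R : SimpleGraph (Fin h)) (m : Fin h → Fin h → Bool)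
    (hm : ∀ x y, R.Adj x y ↔ m x y = true) (n : ℕ) (S : List (Fin h)) (hS : S.Nodup)
    (hu : S.toFinset = univ) (hp : peelB m n S = true) : Good R := by
  obtain ⟨T, k, l, hT, hP⟩ := peel_sound R m hm n S hS hp
  refine ⟨T, k, l, hu ▸ hP, ?_, ?_, Or.inr hT⟩
  · rw [← Finset.card_pos, hT]
    exact one_pos
  · intro i j hij
    rw [hT] at hij
    obtain ⟨rfl, rfl⟩ : i = 0 ∧ j = 0 := by omega
    exact ⟨Function.Embedding.ofIsEmpty, fun x => isEmptyElim x, fun a => a.elim0,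
      fun a => a.elim0⟩

/-- the matchings -/
lemma hasRB_two {W : Type} (R : SimpleGraph W) (T : Finset W) (a b c d : W)
    (hT : a ∈ T ∧ b ∈ T ∧ c ∈ T ∧ d ∈ T)
    (hd : a ≠ b ∧ a ≠ c ∧ a ≠ d ∧ b ≠ c ∧ b ≠ d ∧ c ≠ d) :
    (R.Adj a b → R.Adj c d → HasRB R T 2 0) ∧
    (R.Adj a b → ¬ R.Adj c d → HasRB R T 1 1) ∧
    (¬ R.Adj a b → ¬ R.Adj c d → HasRB R T 0 2) := by
  obtain ⟨h1, h2, h3, h4, h5, h6⟩ := hd
  obtain ⟨ha, hb, hc, hd⟩ := hT
  refine ⟨?_, ?_, ?_⟩
  · intro hab hcd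
    let f : (Fin 2 ⊕ Fin 0) × Bool → W := fun q =>
      match q with
      | (Sum.inl 0, false) => a
      | (Sum.inl 0, true) => b
      | (Sum.inl 1, false) => c
      | (Sum.inl 1, true) => d
    have hf : Function.Injective f := by
      rintro ⟨(i | i), (_ | _)⟩ ⟨(j | j), (_ | _)⟩ h <;> try exact i.elim0
      all_goals fin_cases i <;> fin_cases j <;> simp_all [f]
    refine ⟨⟨f, hf⟩, ?_, ?_, ?_⟩
    · rintro ⟨(i | i), (_ | _)⟩
      all_goals fin_cases i <;> assumption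
    · intro i
      fin_cases i <;> assumption
    · intro i
      exact i.elim0
  · intro hab hcd
    let f : (Fin 1 ⊕ Fin 1) × Bool → W := fun q =>
      match q with
      | (Sum.inl 0, false) => a
      | (Sum.inl 0, true) => b
      | (Sum.inr 0, false) => c
      | (Sum.inr 0, true) => d
    have hf : Function.Injective f := by
      rintro ⟨(i | i), (_ | _)⟩ ⟨(j | j), (_ | _)⟩ h
      all_goals fin_cases i <;> fin_cases j <;> simp_all [f]
    refine ⟨⟨f, hf⟩, ?_, ?_, ?_⟩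
    · rintro ⟨(i | i), (_ | _)⟩
      all_goals fin_cases i <;> assumption
    · intro i
      fin_cases i
      assumption
    · intro i
      fin_cases i
      exact (SimpleGraph.compl_adj R c d).2 ⟨h6, hcd⟩
  · intro hab hcd
    let f : (Fin 0 ⊕ Fin 2) × Bool → W := fun q =>
      match q with
      | (Sum.inr 0, false) => a
      | (Sum.inr 0, true) => b
      | (Sum.inr 1, false) => c
      | (Sum.inr 1, true) => d
    have hf : Function.Injective f := by
      rintro ⟨(i | i), (_ | _)⟩ ⟨(j | j), (_ | _)⟩ h <;> try exact i.elim0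
      all_goals fin_cases i <;> fin_cases j <;> simp_all [f]
    refine ⟨⟨f, hf⟩, ?_, ?_, ?_⟩
    · rintro ⟨(i | i), (_ | _)⟩
      all_goals fin_cases i <;> assumption
    · intro i
      exact i.elim0
    · intro i
      fin_cases i
      · exact (SimpleGraph.compl_adj R a b).2 ⟨h1, hab⟩
      · exact (SimpleGraph.compl_adj R c d).2 ⟨h6, hcd⟩

/-- the four entries are different -/
def Dist {h : ℕ} (q : Fin h × Fin h × Fin h × Fin h) : Prop :=
  q.1 ≠ q.2.1 ∧ q.1 ≠ q.2.2.1 ∧ q.1 ≠ q.2.2.2 ∧ q.2.1 ≠ q.2.2.1 ∧ q.2.1 ≠ q.2.2.2 ∧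
    q.2.2.1 ≠ q.2.2.2

lemma good_of_pm {h : ℕ} (R : SimpleGraph (Fin h)) (m : Fin h → Fin h → Bool)
    (hm : ∀ x y, R.Adj x y ↔ m x y = true) (L : List (Fin h × Fin h × Fin h × Fin h))
    (hL : ∀ q ∈ L, Dist q) (hh : h / 2 = 2) (hp : pmB m L = true) : Good R := by
  have hm' : ∀ x y, (!m x y) = true → ¬ R.Adj x y := by
    intro x y h1 h2
    rw [(hm x y).1 h2] at h1
    simp at h1
  unfold pmB two at hp
  rw [Bool.and_eq_true, Bool.and_eq_true, List.any_eq_true, List.any_eq_true,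
    List.any_eq_true] at hp
  obtain ⟨⟨⟨q, hq, h1⟩, ⟨r, hr, h2⟩⟩, ⟨s, hs, h3⟩⟩ := hp
  have key : ∀ a b c d : Fin h, (a ≠ b ∧ a ≠ c ∧ a ≠ d ∧ b ≠ c ∧ b ≠ d ∧ c ≠ d) →
      (R.Adj a b → R.Adj c d → HasRB R univ 2 0) ∧
      (R.Adj a b → ¬ R.Adj c d → HasRB R univ 1 1) ∧
      (¬ R.Adj a b → ¬ R.Adj c d → HasRB R univ 0 2) := fun a b c d hd =>
    hasRB_two R univ a b c d ⟨mem_univ _, mem_univ _, mem_univ _, mem_univ _⟩ hd
  have H1 : HasRB R univ 2 0 := by
    rw [Bool.or_eq_true, Bool.and_eq_true, Bool.and_eq_true] at h1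
    have hd := key _ _ _ _ (hL q hq)
    rcases h1 with h1 | h1
    · exact hd.1 ((hm _ _).2 h1.1) ((hm _ _).2 h1.2)
    · exact hd.1 ((hm _ _).2 h1.2) ((hm _ _).2 h1.1)
  have H2 : HasRB R univ 1 1 := by
    rw [Bool.or_eq_true, Bool.and_eq_true, Bool.and_eq_true] at h2
    obtain ⟨d1, d2, d3, d4, d5, d6⟩ := hL r hr
    rcases h2 with h2 | h2
    · exact (key _ _ _ _ ⟨d1, d2, d3, d4, d5, d6⟩).2.1 ((hm _ _).2 h2.1) (hm' _ _ h2.2)
    · exact (key _ _ _ _ ⟨d6, d2.symm, d4.symm, d3.symm, d5.symm, d1⟩).2.1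
        ((hm _ _).2 h2.1) (hm' _ _ h2.2)
  have H3 : HasRB R univ 0 2 := by
    rw [Bool.or_eq_true, Bool.and_eq_true, Bool.and_eq_true] at h3
    have hd := key _ _ _ _ (hL s hs)
    rcases h3 with h3 | h3
    · exact hd.2.2 (hm' _ _ h3.1) (hm' _ _ h3.2)
    · exact hd.2.2 (hm' _ _ h3.2) (hm' _ _ h3.1)
  have hpos : 0 < h := by omega
  refine ⟨univ, 0, 0, Peel.base, ⟨⟨0, hpos⟩, mem_univ _⟩, ?_, Or.inl rfl⟩
  intro i j hij
  rw [Finset.card_univ, Fintype.card_fin, hh] at hij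
  obtain ⟨rfl, rfl⟩ | ⟨rfl, rfl⟩ | ⟨rfl, rfl⟩ :
      (i = 2 ∧ j = 0) ∨ (i = 1 ∧ j = 1) ∨ (i = 0 ∧ j = 2) := by omega
  · exact H1
  · exact H2
  · exact H3

lemma bits2 (R : SimpleGraph (Fin 2)) : ∃ l : List Bool, l.length = 1 ∧
    ∀ x y, R.Adj x y ↔ adjB l x y = true := by
  classical
  refine ⟨[decide (R.Adj 0 1)], rfl, ?_⟩
  intro x y
  fin_cases x <;> fin_cases y <;> simp [adjB] <;>
    exact ⟨SimpleGraph.Adj.symm, SimpleGraph.Adj.symm⟩

lemma bits3 (R : SimpleGraph (Fin 3)) : ∃ l : List Bool, l.length = 3 ∧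
    ∀ x y, R.Adj x y ↔ adjB l x y = true := by
  classical
  refine ⟨[decide (R.Adj 0 1), decide (R.Adj 0 2), decide (R.Adj 1 2)], rfl, ?_⟩
  intro x y
  fin_cases x <;> fin_cases y <;> simp [adjB] <;>
    exact ⟨SimpleGraph.Adj.symm, SimpleGraph.Adj.symm⟩

lemma bits4 (R : SimpleGraph (Fin 4)) : ∃ l : List Bool, l.length = 6 ∧
    ∀ x y, R.Adj x y ↔ adjB l x y = true := by
  classical
  refine ⟨[decide (R.Adj 0 1), decide (R.Adj 0 2), decide (R.Adj 1 2), decide (R.Adj 0 3),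
    decide (R.Adj 1 3), decide (R.Adj 2 3)], rfl, ?_⟩
  intro x y
  fin_cases x <;> fin_cases y <;> simp [adjB] <;>
    exact ⟨SimpleGraph.Adj.symm, SimpleGraph.Adj.symm⟩

lemma bits5 (R : SimpleGraph (Fin 5)) : ∃ l : List Bool, l.length = 10 ∧
    ∀ x y, R.Adj x y ↔ adjB l x y = true := by
  classical
  refine ⟨[decide (R.Adj 0 1), decide (R.Adj 0 2), decide (R.Adj 1 2), decide (R.Adj 0 3),
    decide (R.Adj 1 3), decide (R.Adj 2 3), decide (R.Adj 0 4), decide (R.Adj 1 4),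
    decide (R.Adj 2 4), decide (R.Adj 3 4)], rfl, ?_⟩
  intro x y
  fin_cases x <;> fin_cases y <;> simp [adjB] <;>
    exact ⟨SimpleGraph.Adj.symm, SimpleGraph.Adj.symm⟩

theorem main : PartFIVE := by
  constructor
  · intro h R hh
    rcases hh with rfl | rfl | rfl
    · obtain ⟨l, hl, hm⟩ := bits2 R
      exact good_of_peel R (adjB l) hm 1 [0, 1] (by decide) (by decide)
        (allB_spec 1 _ check2 l hl)
    · obtain ⟨l, hl, hm⟩ := bits3 R
      exact good_of_peel R (adjB l) hm 2 [0, 1, 2] (by decide) (by decide)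
        (allB_spec 3 _ check3 l hl)
    · obtain ⟨l, hl, hm⟩ := bits5 R
      have h1 := allB_spec 10 _ check5 l hl
      rw [Bool.or_eq_true] at h1
      rcases h1 with h1 | h1
      · exact good_of_peel R (adjB l) hm 4 [0, 1, 2, 3, 4] (by decide) (by decide) h1
      · exact good_of_pm R (adjB l) hm L5 (by unfold Dist; decide +kernel) (by norm_num) h1
  · intro R hR
    obtain ⟨l, hl, hm⟩ := bits4 R
    have h1 := allB_spec 6 _ check4 l hl
    rw [Bool.or_eq_true, Bool.or_eq_true] at h1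
    rcases h1 with (h1 | h1) | h1
    · exact absurd (good_of_peel R (adjB l) hm 3 [0, 1, 2, 3] (by decide) (by decide) h1) hR
    · exact absurd (good_of_pm R (adjB l) hm L4 (by unfold Dist; decide +kernel) (by norm_num) h1) hR
    · obtain ⟨e, he⟩ : ∃ e : Equiv.Perm (Fin 4), chk4 (adjB l) e = true := by
        rw [Bool.or_eq_true, Bool.or_eq_true] at h1
        rcases h1 with (h1 | h1) | h1
        · exact ⟨_, h1⟩
        · exact ⟨_, h1⟩
        · exact ⟨_, h1⟩
      refine ⟨e, ?_⟩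
      rw [chk4, Bool.or_eq_true, decide_eq_true_iff, decide_eq_true_iff] at he
      rcases he with he | he
      · left
        intro x y
        rw [hm]
        exact he x y
      · right
        intro x y
        rw [hm]
        exact he x y

end Pool.Agent.W753.MX
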